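import Mathlib
import Pool.Agent.H925R3.DC.Defs

/-! Finite covers of arbitrary degree of products of elliptic curves: definitions. -/

namespace Pool.Agent.H925R3.DD

open Finset Pool.Agent.H925R3.DC

/-- exponents `(i, j)` of the monomials `x^i y^j` with `j ≤ 1` and pole order `2i + 3j ≤ n` -/
def monSetW (n : ℕ) : Finset (ℕ × ℕ) :=
  ((range (n + 1)) ×ˢ (range 2)).filter (fun s => 2 * s.1 + 3 * s.2 ≤ n)

/-- the index type of the monomials -/
abbrev MonW (n : ℕ) : Type := {s : ℕ × ℕ // s ∈ monSetW n}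

/-- the monomial `X^i Y^j Z^(n - 2i - 3j)`, weighted homogeneous of degree `n` for the weights
`2, 3, 1` of `X, Y, Z` -/
def monoW {R : Type} [CommRing R] {n : ℕ} (s : MonW n) (X Y Z : R) : R :=
  X ^ s.1.1 * Y ^ s.1.2 * Z ^ (n - 2 * s.1.1 - 3 * s.1.2)

/-- the index type of all coefficients of `(s_1, …, s_d)`, where `s_(i+1)` is a section of
`O((i+1) m (O₁ + ⋯ + O_r))` -/
abbrev Idx (r m d : ℕ) : Type := Σ i : Fin d, (Fin r → MonW ((i.1 + 1) * m))

/-- the section `s_(i+1)` with the coefficients `c` -/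
def sec {R : Type} [CommRing R] {r m d : ℕ} (c : Idx r m d → ℤ) (i : Fin d)
    (X Y Z : Fin r → R) : R :=
  ∑ s : Fin r → MonW ((i.1 + 1) * m), (c ⟨i, s⟩ : R) * ∏ j, monoW (s j) (X j) (Y j) (Z j)

/-- the degree `d` cover `w^d + s_1 w^(d-1) + ⋯ + s_d = 0` of the product of the curves
`Yᵢ² = Xᵢ³ + aᵢ Xᵢ Zᵢ⁴ + bᵢ Zᵢ⁶` has a point over the field `K` (weighted homogeneous coordinates
in each factor, so points at infinity are included) -/
def HasPointD (K : Type) [Field K] {r m d : ℕ} (a b : Fin r → ℤ) (c : Idx r m d → ℤ) : Prop :=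
  ∃ (X Y Z : Fin r → K) (w : K),
    (∀ i, Y i ^ 2 = X i ^ 3 + a i * X i * Z i ^ 4 + b i * Z i ^ 6 ∧
      ¬ (X i = 0 ∧ Y i = 0 ∧ Z i = 0)) ∧
    w ^ d + ∑ i : Fin d, sec c i X Y Z * w ^ (d - 1 - i.1) = 0

/-- standard weighted homogeneous coordinates of a point -/
def std {K : Type} [Field K] {a b : K} : (crv K a b).Point → K × K × K
  | .zero => (1, 1, 0)
  | .some x y _ => (x, y, 1)

/-- the coefficient vectors of the monic polynomials of degree `d` with a root in `𝔽_p` -/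
def rootSet (p d : ℕ) : Set (Fin d → ZMod p) :=
  {s | ∃ w : ZMod p, w ^ d + ∑ i : Fin d, s i * w ^ (d - 1 - i.1) = 0}

/-- `O` is a valuation ring of `K` and `φ : O → k` has its maximal ideal as kernel -/
def IsVal {K k : Type} [Field K] [Field k] (O : Subring K) (φ : O →+* k) : Prop :=
  (∀ x : K, x ∈ O ∨ x⁻¹ ∈ O) ∧ (∀ x : O, φ x ≠ 0 → (x : K)⁻¹ ∈ O)

/-- `red` is the reduction of the points of `y² = x³ + a x + b` with respect to `O, φ` -/
def IsRed {K k : Type} [Field K] [Field k] (O : Subring K) (φ : O →+* k) (a b : ℤ)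
    (red : (crv K (a : K) (b : K)).Point → (crv k (a : k) (b : k)).Point) : Prop :=
  red .zero = .zero ∧ ∀ (x y : K) (h : (crv K (a : K) (b : K)).Nonsingular x y),
    (x ∉ O → red (.some x y h) = .zero) ∧
    (∀ hx : x ∈ O, ∃ (hy : y ∈ O) (h' : (crv k (a : k) (b : k)).Nonsingular (φ ⟨x, hx⟩)
      (φ ⟨y, hy⟩)), red (.some x y h) = .some (φ ⟨x, hx⟩) (φ ⟨y, hy⟩) h')

end Pool.Agent.H925R3.DD
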