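import Mathlib
import Pool.Agent.H925R3.DD.Defs
import Pool.Agent.H925R3.DC.Stubs

/-! Statements (as `Prop`s) of the modules for covers of degree `d`. -/

namespace Pool.Agent.H925R3.DD

open Finset Pool.Agent.H925R3.DC

/-- MWK: Mordell-Weil over number fields for `y² = x³ + a x + b` -/
def MWK : Prop := ∀ (K : Type) [Field K] [NumberField K] [DecidableEq K] (a b : ℤ),
  4 * a ^ 3 + 27 * b ^ 2 ≠ 0 → AddGroup.FG (crv K (a : K) (b : K)).Point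

/-- REDK: reduction is a homomorphism -/
def REDK : Prop := ∀ (K k : Type) [Field K] [Field k] [DecidableEq K] [DecidableEq k]
  (O : Subring K) (φ : O →+* k), IsVal O φ → (2 : k) ≠ 0 → ∀ a b : ℤ,
  ((4 * a ^ 3 + 27 * b ^ 2 : ℤ) : k) ≠ 0 →
  ∃ red : (crv K (a : K) (b : K)).Point →+ (crv k (a : k) (b : k)).Point,
    IsRed O φ a b red

/-- LOC1: coordinates adapted to the reduction -/
def LOC1 : Prop := ∀ (K k : Type) [Field K] [Field k] (O : Subring K) (φ : O →+* k), IsVal O φ →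
  ∀ (a b : ℤ) (red : (crv K (a : K) (b : K)).Point → (crv k (a : k) (b : k)).Point),
  IsRed O φ a b red → ∀ X Y Z : K, Y ^ 2 = X ^ 3 + a * X * Z ^ 4 + b * Z ^ 6 →
  ¬ (X = 0 ∧ Y = 0 ∧ Z = 0) → ∀ P : (crv K (a : K) (b : K)).Point,
  ((Z = 0 ∧ P = .zero) ∨ (Z ≠ 0 ∧ ∃ h, P = .some (X / Z ^ 2) (Y / Z ^ 3) h)) →
  ∃ (l : K) (X' Y' Z' : O), l ≠ 0 ∧ X = l ^ 2 * X' ∧ Y = l ^ 3 * Y' ∧ Z = l * Z' ∧
    (φ X', φ Y', φ Z') = std (red P)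

/-- HPD: a point of the cover gives a root of the reduced polynomial, for all `O, φ` -/
def HPD : Prop := ∀ (K : Type) [Field K] (r m d : ℕ) (a b : Fin r → ℤ) (c : Idx r m d → ℤ),
  1 ≤ d → (2 : K) ≠ 0 → (∀ i, ((4 * a i ^ 3 + 27 * b i ^ 2 : ℤ) : K) ≠ 0) → HasPointD K a b c →
  ∃ P : (i : Fin r) → (crv K (a i : K) (b i : K)).Point,
    ∀ (k : Type) [Field k] (O : Subring K) (φ : O →+* k), IsVal O φ →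
    ∀ red : (i : Fin r) → (crv K (a i : K) (b i : K)).Point → (crv k (a i : k) (b i : k)).Point,
    (∀ i, IsRed O φ (a i) (b i) (red i)) →
    ∃ w : k, w ^ d + ∑ i : Fin d, sec c i (fun j => (std (red j (P j))).1)
      (fun j => (std (red j (P j))).2.1) (fun j => (std (red j (P j))).2.2) * w ^ (d - 1 - i.1) = 0

/-- PADIC: an embedding in `ℚ_p` gives a valuation ring with residue map to `𝔽_p` -/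
def PADIC : Prop := ∀ (p : ℕ) [Fact p.Prime] (K : Type) [Field K] (_σ : K →+* ℚ_[p]),
  ∃ (O : Subring K) (φ : O →+* ZMod p), IsVal O φ

/-- ROOT: a positive proportion of the monic polynomials of degree `d ≥ 2` has no root -/
def ROOT : Prop := ∀ p d : ℕ, p.Prime → 2 ≤ d →
  (Nat.card (rootSet p d) : ℝ) ≤ (1 - 1 / (2 * (d : ℝ) ^ 2)) * (p : ℝ) ^ d

/-- CRDW: number of the monomials -/
def CRDW : Prop := ∀ n : ℕ, 1 ≤ n → Fintype.card (MonW n) = n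

/-- NZW: some monomial does not vanish at a point in standard coordinates -/
def NZW : Prop := ∀ (k : Type) [Field k] (a b : k) (n : ℕ), 2 ≤ n → ∀ Q : (crv k a b).Point,
  ∃ s : MonW n, monoW s (std Q).1 (std Q).2.1 (std Q).2.2 ≠ 0

/-- MOM: moment sieve in `d` variables -/
def MOM : Prop := ∀ (d : ℕ) (S : Finset ℕ) (k X L : ℕ) (η : ℝ) (α β : ℕ → Fin d → ℤ)
  (B : (p : ℕ) → Set (Fin d → ZMod p)), 1 ≤ d → 0 < η → η ≤ 1 →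
  (∀ p ∈ S, p.Prime ∧ p ≤ X ∧ (∀ i, ¬ (p : ℤ) ∣ α p i) ∧
    (Nat.card (B p) : ℝ) ≤ (1 - η) * (p : ℝ) ^ d) →
  (Nat.card {t : Fin d → ℕ // (∀ i, t i ∈ Icc 1 L) ∧
      ∀ p ∈ S, (fun i => ((α p i * t i + β p i : ℤ) : ZMod p)) ∈ B p} : ℝ) *
    (η ^ (2 * k) * (S.card.choose k : ℝ) ^ 2) ≤
    (S.card.choose k : ℝ) * (L : ℝ) ^ d +
      (S.card.choose k : ℝ) ^ 2 * (d * (X : ℝ) ^ (2 * k) * (L : ℝ) ^ (d - 1))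

/-- LINB: the same for linear forms in a box -/
def LINB : Prop := ∀ (d : ℕ) (ι : Type) [Fintype ι] [Nonempty ι] (deg : ι → Fin d) (S : Finset ℕ)
  (k X H n : ℕ) (η : ℝ) (V : (p : ℕ) → ι → ZMod p) (B : (p : ℕ) → Set (Fin d → ZMod p)),
  1 ≤ d → 0 < η → η ≤ 1 →
  (∀ p ∈ S, p.Prime ∧ p ≤ X ∧ (∀ i, ∃ j, deg j = i ∧ V p j ≠ 0) ∧
    (Nat.card (B p) : ℝ) ≤ (1 - η) * (p : ℝ) ^ d) →
  Fintype.card ι ^ d * n ≤ S.card → 1 ≤ n →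
  (Nat.card {c : ι → ℤ // (∀ j, |c j| ≤ H) ∧
      ∀ p ∈ S, (fun i => ∑ j, if deg j = i then (c j : ZMod p) * V p j else 0) ∈ B p} : ℝ) *
    (η ^ (2 * k) * (n.choose k : ℝ) ^ 2) ≤
    ((n.choose k : ℝ) * (2 * (H : ℝ) + 1) ^ d +
      (n.choose k : ℝ) ^ 2 * (d * (X : ℝ) ^ (2 * k) * (2 * (H : ℝ) + 1) ^ (d - 1))) *
      (2 * (H : ℝ) + 1) ^ (Fintype.card ι - d)

open Classical in
/-- the primes `p ≤ X`, `p ≡ α mod M`, with a prime of `QQ δ X` dividing `p + e` -/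
noncomputable def PPG (M : ℕ) (α e : ℤ) (δ X : ℝ) : Finset ℕ :=
  (Icc 1 ⌊X⌋₊).filter (fun p => p.Prime ∧ (M : ℤ) ∣ (p : ℤ) - α ∧
    ∃ q ∈ QQ δ X, (q : ℤ) ∣ (p : ℤ) + e)

/-- the residue `r q` modulo `M q` is `α` modulo `M` and `-e` modulo `q` -/
def IsRes (M : ℕ) (α e : ℤ) (r : ℕ → ℕ) : Prop :=
  ∀ q : ℕ, q.Prime → ¬ q ∣ M → (M : ℤ) ∣ (r q : ℤ) - α ∧ (q : ℤ) ∣ (r q : ℤ) + e

open Pool.Agent.H410R2 in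
/-- PRMSG: Bombieri-Vinogradov -/
def PRMSG : Prop := BVAP → PNTLog → PRMQ → ∀ (M : ℕ) (α e : ℤ), 0 < M → IsCoprime α (M : ℤ) →
  (e = 1 ∨ e = -1) → ∀ r : ℕ → ℕ, IsRes M α e r → ∀ δ : ℝ, 0 < δ → δ ≤ 1 / 8 →
    ∃ X₀ : ℝ, ∀ X : ℝ, X₀ ≤ X →
    X / (16 * M * Real.log X) ≤ ∑ q ∈ QQ δ X, psiLogAP X (M * q) (r q)

open Pool.Agent.H410R2 in
/-- PRMCG: from the weighted sum to a count of primes -/
def PRMCG : Prop := ∀ (M : ℕ) (α e : ℤ), 0 < M → IsCoprime α (M : ℤ) → (e = 1 ∨ e = -1) →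
  ∀ r : ℕ → ℕ, IsRes M α e r → ∀ δ : ℝ, 0 < δ → δ ≤ 1 / 8 → ∃ X₀ : ℝ, ∀ X : ℝ, X₀ ≤ X →
    ∑ q ∈ QQ δ X, psiLogAP X (M * q) (r q) ≤
      2 * Real.log X ^ 3 * ((PPG M α e δ X).card + 2 * Real.sqrt X * Real.log X)

/-- PRMG: many primes `p ≤ X`, `p ≡ α mod M`, whose shifts `p + e` divide one `N` -/
def PRMG : Prop := ∀ (M D : ℕ) (α e : ℤ), 0 < M → 0 < D → IsCoprime α (M : ℤ) →
  (e = 1 ∨ e = -1) → ∀ ε : ℝ, 0 < ε →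
  ∃ X₀ : ℝ, ∀ X : ℝ, X₀ ≤ X → ∃ (S : Finset ℕ) (N : ℕ), 0 < N ∧
    (∀ p ∈ S, p.Prime ∧ 2 < p ∧ (p : ℝ) ≤ X ∧ ¬ p ∣ D ∧ (M : ℤ) ∣ (p : ℤ) - α ∧
      (p : ℤ) + e ∣ (N : ℤ)) ∧
    X ^ (1 - ε) ≤ (S.card : ℝ) ∧ Real.log N ≤ X ^ (1 / 2 + ε)

/-- PARB: choice of the parameters -/
def PARB : Prop := ∀ (t q d : ℕ) (η₀ : ℝ), 1 ≤ q → 1 ≤ d → 0 < η₀ → η₀ ≤ 1 → ∀ ε : ℝ, 0 < ε →
  ∃ δ : ℝ, 0 < δ ∧ δ ≤ 1 ∧ ∃ η : ℝ, 0 < η ∧ η ≤ 1 ∧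
  ∃ H₀ : ℕ, ∀ H : ℕ, H₀ ≤ H → ∀ (X : ℝ), X = Real.log H ^ (2 - δ) → ∀ n : ℕ,
    X ^ (1 - η) / (q : ℝ) - 1 ≤ (n : ℝ) → ∀ N : ℕ, 0 < N → Real.log N ≤ X ^ (1 / 2 + η) →
    1 ≤ X ^ (1 - η) / (q : ℝ) - 1 ∧
    ∃ k : ℕ, 0 < n.choose k ∧
      (N : ℝ) ^ t * (((n.choose k : ℝ) * (2 * (H : ℝ) + 1) ^ d +
        (n.choose k : ℝ) ^ 2 * (d * (⌊X⌋₊ : ℝ) ^ (2 * k) * (2 * (H : ℝ) + 1) ^ (d - 1))) /
        (η₀ ^ (2 * k) * (n.choose k : ℝ) ^ 2)) ≤ (H : ℝ) ^ ((d : ℝ) - 1 / 5 + ε)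

/-- QUAD: real quadratic fields embed in `ℚ_p` for `p ≡ -1 mod 4n` -/
def QUAD : Prop := ∀ (K : Type) [Field K] [NumberField K] (n : ℕ) (θ : K), 0 < n →
  θ ^ 2 = (n : K) → IntermediateField.adjoin ℚ {θ} = ⊤ →
  ∀ (p : ℕ) [Fact p.Prime], 2 < p → 4 * n ∣ p + 1 → Nonempty (K →+* ℚ_[p])

/-- ABSB: the abstract sieve theorem -/
def ABSB : Prop := ∀ (G : Type) [AddCommGroup G] [AddGroup.FG G] (ι : Type) [Fintype ι]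
  (d : ℕ) (deg : ι → Fin d) (M D : ℕ) (α e : ℤ) (V : (p : ℕ) → G → ι → ZMod p)
  (B : (p : ℕ) → Set (Fin d → ZMod p)) (η : ℝ), 1 ≤ d → 0 < M → 0 < D → IsCoprime α (M : ℤ) →
  (e = 1 ∨ e = -1) → 0 < η → η ≤ 1 →
  (∀ p : ℕ, p.Prime → 2 < p → ¬ p ∣ D → (M : ℤ) ∣ (p : ℤ) - α →
    (∀ P P' R : G, P = P' + ((p : ℤ) + e) • R → V p P = V p P') ∧
    (∀ P i, ∃ j, deg j = i ∧ V p P j ≠ 0) ∧
    (Nat.card (B p) : ℝ) ≤ (1 - η) * (p : ℝ) ^ d) →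
  ∀ ε : ℝ, 0 < ε → ∃ C : ℝ, ∀ H : ℕ, 1 ≤ H →
    (Nat.card {c : ι → ℤ // (∀ j, |c j| ≤ H) ∧ ∃ P : G, ∀ p : ℕ, p.Prime → 2 < p → ¬ p ∣ D →
      (M : ℤ) ∣ (p : ℤ) - α →
      (fun i => ∑ j, if deg j = i then (c j : ZMod p) * V p P j else 0) ∈ B p} : ℝ) ≤
      C * (H : ℝ) ^ ((Fintype.card ι : ℝ) - 1 / 5 + ε)

/-- MAINB: almost all covers of degree `d` have no point over `K` -/
def MAINB : Prop := ∀ (K : Type) [Field K] [NumberField K] (r m d : ℕ), 1 ≤ r → 2 ≤ m → 2 ≤ d →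
  ∀ (a b : Fin r → ℤ) (M D : ℕ) (α : ℤ), 0 < M → 0 < D → IsCoprime α (M : ℤ) →
  (∀ i, 4 * a i ^ 3 + 27 * b i ^ 2 ≠ 0) →
  (∀ (p : ℕ) [Fact p.Prime], ¬ p ∣ D → (M : ℤ) ∣ (p : ℤ) - α → Nonempty (K →+* ℚ_[p])) →
  (∀ i, ∀ p : ℕ, p.Prime → ¬ p ∣ D → (M : ℤ) ∣ (p : ℤ) - α →
    Nat.card {z : ZMod p × ZMod p // z.2 ^ 2 = z.1 ^ 3 + a i * z.1 + b i} = p) →
  ∀ ε : ℝ, 0 < ε → ∃ C : ℝ, ∀ H : ℕ, 1 ≤ H →
    (Nat.card {c : Idx r m d → ℤ // (∀ s, |c s| ≤ H) ∧ HasPointD K a b c} : ℝ) ≤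
      C * (H : ℝ) ^ ((∑ i : Fin d, (((i.1 + 1) * m : ℕ) : ℝ) ^ r) - 1 / 5 + ε)

end Pool.Agent.H925R3.DD
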