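import Mathlib
import Pool.Agent.H925R3.DD.Stubs
import Pool.Agent.H925R3.DC.Abs

/-! Assembly of the abstract sieve theorem, degree `d`. -/

namespace Pool.Agent.H925R3.DD

open Finset Filter Topology Pool.Agent.H925R3.DC

theorem abs_mainB (hCLS : CLS) (hPRM : PRMG) (hLIN : LINB) (hPAR : PARB) : ABSB := by
  classical
  intro G _ _ ι _ d deg M D α e V B η₀ hd hM hD hαM he hη0 hη1 hp ε hε
  obtain ⟨t, ht⟩ := hCLS G
  have hd0 : 0 < d := hd
  have hsurj : Function.Surjective deg := by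
    obtain ⟨X₀, hX₀⟩ := hPRM M D α e hM hD hαM he 1 one_pos
    obtain ⟨S, N, -, hS1, hS2, -⟩ := hX₀ (max X₀ 1) (le_max_left _ _)
    rw [sub_self, Real.rpow_zero] at hS2
    have hpos : 0 < S.card := by exact_mod_cast lt_of_lt_of_le one_pos hS2
    obtain ⟨p, hpS⟩ := Finset.card_pos.1 hpos
    obtain ⟨h1, h2, -, h4, h5, -⟩ := hS1 p hpS
    intro i
    obtain ⟨j, hj, -⟩ := (hp p h1 h2 h4 h5).2.1 0 i
    exact ⟨j, hj⟩
  have hne : Nonempty ι := ⟨(hsurj ⟨0, hd0⟩).choose⟩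
  have hcd : d ≤ Fintype.card ι := by
    have := Fintype.card_le_of_surjective deg hsurj
    rwa [Fintype.card_fin] at this
  set c₀ := Fintype.card ι with hc₀
  have hc1 : 1 ≤ c₀ := Fintype.card_pos
  set q := c₀ ^ d with hq
  have hq1 : 1 ≤ q := Nat.one_le_pow _ _ hc1
  obtain ⟨δ, hδ, hδ1, η, hη, hη1', H₀, hpar⟩ := hPAR t q d η₀ hq1 hd hη0 hη1 ε hε
  obtain ⟨X₀, hprm⟩ := hPRM M D α e hM hD hαM he η hη
  have hev := (tendsto_X hδ1).eventually_ge_atTop (max X₀ 1)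
  obtain ⟨H₁, hH₁⟩ := (hev.and (eventually_ge_atTop (max H₀ 1))).exists_forall_of_atTop
  have hqR : (1 : ℝ) ≤ q := by exact_mod_cast hq1
  set PP : (ι → ℤ) → Prop := fun c => ∃ P : G, ∀ p : ℕ, p.Prime → 2 < p → ¬ p ∣ D →
      (M : ℤ) ∣ (p : ℤ) - α →
      (fun i => ∑ j, if deg j = i then (c j : ZMod p) * V p P j else 0) ∈ B p with hPP
  have key : ∀ H : ℕ, H₁ ≤ H →
      (Nat.card {c : ι → ℤ // (∀ j, |c j| ≤ H) ∧ PP c} : ℝ) ≤
      3 ^ (c₀ - d) * (H : ℝ) ^ ((c₀ : ℝ) - 1 / 5 + ε) := by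
    intro H hH
    obtain ⟨hX, hHH⟩ := hH₁ H hH
    have hHH0 : H₀ ≤ H := (le_max_left _ _).trans hHH
    have hH1 : 1 ≤ H := (le_max_right _ _).trans hHH
    have hHR : (1 : ℝ) ≤ H := by exact_mod_cast hH1
    set X : ℝ := Real.log H ^ (2 - δ) with hXdef
    have hX1 : 1 ≤ X := (le_max_right _ _).trans hX
    obtain ⟨S, N, hN, hS1, hS2, hN2⟩ := hprm X ((le_max_left _ _).trans hX)
    set n : ℕ := S.card / q with hn
    have hn1 : X ^ (1 - η) / (q : ℝ) - 1 ≤ (n : ℝ) := by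
      have h1 : (S.card : ℝ) / q ≤ n + 1 := by
        rw [div_le_iff₀ (by linarith)]
        have := Nat.lt_mul_div_succ S.card (show 0 < q by omega)
        have h2 : (S.card : ℝ) ≤ q * (n + 1) := by
          have h3 : S.card ≤ q * (S.card / q + 1) := this.le
          have h4 : (S.card : ℝ) ≤ ((q * (S.card / q + 1) : ℕ) : ℝ) := by exact_mod_cast h3
          push_cast at h4
          simpa [hn] using h4
        linarith
      have h2 : X ^ (1 - η) / (q : ℝ) ≤ S.card / q := by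
        apply div_le_div_of_nonneg_right hS2 (by linarith)
      linarith
    obtain ⟨hbig, k, hk2, hk3⟩ := hpar H hHH0 X rfl n hn1 N hN hN2
    have hnpos : 1 ≤ n := by
      have : (1 : ℝ) ≤ n := hbig.trans hn1
      exact_mod_cast this
    obtain ⟨T, hT1, hT2⟩ := ht N hN
    have hch : (0 : ℝ) < n.choose k := by exact_mod_cast hk2
    have hden : (0 : ℝ) < η₀ ^ (2 * k) * (n.choose k : ℝ) ^ 2 := by positivity
    set A : ℝ := (n.choose k : ℝ) * (2 * (H : ℝ) + 1) ^ d +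
        (n.choose k : ℝ) ^ 2 * (d * (⌊X⌋₊ : ℝ) ^ (2 * k) * (2 * (H : ℝ) + 1) ^ (d - 1)) with hA
    have hA0 : 0 ≤ A := by positivity
    -- one class
    have hclass : ∀ g ∈ T, (Nat.card {c : ι → ℤ // (∀ j, |c j| ≤ H) ∧
        ∀ p ∈ S, (fun i => ∑ j, if deg j = i then (c j : ZMod p) * V p g j else 0) ∈ B p} : ℝ) ≤
        A / (η₀ ^ (2 * k) * (n.choose k : ℝ) ^ 2) * (3 * H) ^ (c₀ - d) := by
      intro g _
      have h1 := hLIN d ι deg S k ⌊X⌋₊ H n η₀ (fun p => V p g) B hd hη0 hη1 (by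
        intro p hpS
        obtain ⟨a1, a2, a3, a4, a5, -⟩ := hS1 p hpS
        exact ⟨a1, Nat.le_floor a3, (hp p a1 a2 a4 a5).2.1 g, (hp p a1 a2 a4 a5).2.2⟩)
        (by
          rw [← hc₀, ← hq, hn]
          exact Nat.mul_div_le _ _) hnpos
      rw [← hc₀, ← hA] at h1
      rw [div_mul_eq_mul_div, le_div_iff₀ hden]
      refine h1.trans ?_
      have e2 : (2 * (H : ℝ) + 1) ^ (c₀ - d) ≤ (3 * H) ^ (c₀ - d) := by
        apply pow_le_pow_left₀ (by positivity)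
        linarith
      gcongr
    have hub := union_bound H T PP
      (fun g c => ∀ p ∈ S, (fun i => ∑ j, if deg j = i then (c j : ZMod p) * V p g j else 0) ∈ B p)
      (by
        rintro c ⟨P, hP⟩
        obtain ⟨g, hg, R, hR⟩ := hT2 P
        refine ⟨g, hg, ?_⟩
        intro p hpS
        obtain ⟨a1, a2, a3, a4, a5, a6⟩ := hS1 p hpS
        obtain ⟨w, hw⟩ := a6
        have hPR : P = g + ((p : ℤ) + e) • (w • R) := by
          rw [hR, ← natCast_zsmul, hw, mul_smul]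
        have h1 := (hp p a1 a2 a4 a5).1 P g (w • R) hPR
        have h2 := hP p a1 a2 a4 a5
        rwa [h1] at h2) _ hclass
    refine hub.trans ?_
    have hTN : (T.card : ℝ) ≤ (N : ℝ) ^ t := by exact_mod_cast hT1
    have e4 : (H : ℝ) ^ ((d : ℝ) - 1 / 5 + ε) * (H : ℝ) ^ (c₀ - d) =
        (H : ℝ) ^ ((c₀ : ℝ) - 1 / 5 + ε) := by
      rw [← Real.rpow_natCast, ← Real.rpow_add (by linarith)]
      congr 1
      rw [Nat.cast_sub hcd]
      ring
    calc (T.card : ℝ) * (A / (η₀ ^ (2 * k) * (n.choose k : ℝ) ^ 2) * (3 * H) ^ (c₀ - d))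
        ≤ (N : ℝ) ^ t * (A / (η₀ ^ (2 * k) * (n.choose k : ℝ) ^ 2) * (3 * H) ^ (c₀ - d)) := by
          gcongr
      _ = ((N : ℝ) ^ t * (A / (η₀ ^ (2 * k) * (n.choose k : ℝ) ^ 2))) * (3 * H) ^ (c₀ - d) := by
          ring
      _ ≤ (H : ℝ) ^ ((d : ℝ) - 1 / 5 + ε) * (3 * H) ^ (c₀ - d) := by gcongr
      _ = 3 ^ (c₀ - d) * ((H : ℝ) ^ ((d : ℝ) - 1 / 5 + ε) * (H : ℝ) ^ (c₀ - d)) := by
          rw [mul_pow]; ring
      _ = _ := by rw [e4]
  refine ⟨3 ^ (c₀ - d) + (2 * (H₁ : ℝ) + 1) ^ c₀, fun H hH => ?_⟩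
  have hHR : (1 : ℝ) ≤ H := by exact_mod_cast hH
  have hcR : (1 : ℝ) ≤ c₀ := by exact_mod_cast hc1
  have hexp : (0 : ℝ) ≤ (c₀ : ℝ) - 1 / 5 + ε := by linarith
  have hpow : (1 : ℝ) ≤ (H : ℝ) ^ ((c₀ : ℝ) - 1 / 5 + ε) := Real.one_le_rpow hHR hexp
  rcases le_or_gt H₁ H with h | h
  · refine (key H h).trans ?_
    gcongr
    have : (0 : ℝ) ≤ (2 * (H₁ : ℝ) + 1) ^ c₀ := by positivity
    linarith
  · have h1 := box_trivial H PP
    have h2 : ((2 * H + 1 : ℕ) : ℝ) ^ c₀ ≤ (2 * (H₁ : ℝ) + 1) ^ c₀ := by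
      have : (H : ℝ) ≤ H₁ := by exact_mod_cast h.le
      push_cast
      gcongr
    have h3 : (Nat.card {c : ι → ℤ // (∀ j, |c j| ≤ H) ∧ PP c} : ℝ) ≤
        (2 * (H₁ : ℝ) + 1) ^ c₀ := by
      refine le_trans ?_ h2
      rw [← hc₀] at h1
      exact_mod_cast h1
    have h4 : (0 : ℝ) ≤ 3 ^ (c₀ - d) := by positivity
    calc _ ≤ (2 * (H₁ : ℝ) + 1) ^ c₀ := h3
      _ ≤ (3 ^ (c₀ - d) + (2 * (H₁ : ℝ) + 1) ^ c₀) * 1 := by linarith
      _ ≤ _ := by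
        apply mul_le_mul_of_nonneg_left hpow
        positivity

end Pool.Agent.H925R3.DD
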