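import Mathlib
import Pool.Agent.H925R3.DD.Stubs
import Pool.Agent.H925R3.DC.Main

/-! Assembly: from the abstract sieve to covers of degree `d`. -/

namespace Pool.Agent.H925R3.DD

open Finset Pool.Agent.H925R3.DC

/-- the property of `P` given by `HPD` -/
def PtProp {K : Type} [Field K] {r m d : ℕ} (a b : Fin r → ℤ) (c : Idx r m d → ℤ)
    (P : (i : Fin r) → (crv K (a i : K) (b i : K)).Point) : Prop :=
  ∀ (k : Type) [Field k] (O : Subring K) (φ : O →+* k), IsVal O φ →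
    ∀ red : (i : Fin r) → (crv K (a i : K) (b i : K)).Point → (crv k (a i : k) (b i : k)).Point,
    (∀ i, IsRed O φ (a i) (b i) (red i)) →
    ∃ w : k, w ^ d + ∑ i : Fin d, sec c i (fun j => (std (red j (P j))).1)
      (fun j => (std (red j (P j))).2.1) (fun j => (std (red j (P j))).2.2) * w ^ (d - 1 - i.1) = 0

theorem localV (hREDK : REDK) (hPADIC : PADIC) (hEXP : EXP) (hNZW : NZW)
    {K : Type} [Field K] [DecidableEq K] {r m d : ℕ} (hm : 2 ≤ m) (a b : Fin r → ℤ) (p : ℕ)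
    (hp : p.Prime) (h2 : 2 < p) (hdisc : ∀ i, ¬ (p : ℤ) ∣ 4 * a i ^ 3 + 27 * b i ^ 2)
    (hσ : ∀ [Fact p.Prime], Nonempty (K →+* ℚ_[p]))
    (hcard : ∀ i, Nat.card {z : ZMod p × ZMod p // z.2 ^ 2 = z.1 ^ 3 + a i * z.1 + b i} = p) :
    ∃ V : ((i : Fin r) → (crv K (a i : K) (b i : K)).Point) → Idx r m d → ZMod p,
      (∀ P P' R : (i : Fin r) → (crv K (a i : K) (b i : K)).Point,
        P = P' + ((p : ℤ) + 1) • R → V P = V P') ∧
      (∀ P i, ∃ j : Idx r m d, j.1 = i ∧ V P j ≠ 0) ∧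
      (∀ (c : Idx r m d → ℤ) P, PtProp a b c P →
        (fun i => ∑ j : Idx r m d, if j.1 = i then (c j : ZMod p) * V P j else 0) ∈
          rootSet p d) := by
  classical
  have : Fact p.Prime := ⟨hp⟩
  obtain ⟨σ⟩ := hσ
  obtain ⟨O, φ, hO⟩ := hPADIC p K σ
  have h2p : (2 : ZMod p) ≠ 0 := by
    intro h
    have h3 : ((2 : ℕ) : ZMod p) = 0 := by exact_mod_cast h
    have := Nat.le_of_dvd (by norm_num) ((ZMod.natCast_eq_zero_iff 2 p).1 h3)
    omega
  have hd' : ∀ i, ((4 * a i ^ 3 + 27 * b i ^ 2 : ℤ) : ZMod p) ≠ 0 := by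
    intro i h
    exact hdisc i ((ZMod.intCast_zmod_eq_zero_iff_dvd _ p).1 h)
  choose red hred using fun i => hREDK K (ZMod p) O φ hO h2p (a i) (b i) (hd' i)
  refine ⟨fun P j => ∏ l, monoW (j.2 l) (std (red l (P l))).1 (std (red l (P l))).2.1
    (std (red l (P l))).2.2, ?_, ?_, ?_⟩
  · intro P P' R hP
    have h1 : ∀ i, red i (P i) = red i (P' i) := by
      intro i
      have hPi : P i = P' i + ((p : ℤ) + 1) • R i := by rw [hP]; rfl
      have hz : ((p : ℤ) + 1) • red i (R i) = 0 := hEXP p (a i) (b i) h2 (hdisc i)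
        (hcard i) (red i (R i))
      calc red i (P i) = red i (P' i + ((p : ℤ) + 1) • R i) := congrArg _ hPi
        _ = red i (P' i) + red i (((p : ℤ) + 1) • R i) := map_add _ _ _
        _ = red i (P' i) + ((p : ℤ) + 1) • red i (R i) :=
            congrArg (fun z => red i (P' i) + z) (map_zsmul (red i) _ _)
        _ = red i (P' i) := by rw [hz, add_zero]
    funext j
    apply Finset.prod_congr rfl
    intro l _
    rw [h1 l]
  · intro P i
    have h3 := fun l => hNZW (ZMod p) (a l : ZMod p) (b l : ZMod p) ((i.1 + 1) * m)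
      (by nlinarith) (red l (P l))
    choose s hs using h3
    refine ⟨⟨i, s⟩, rfl, ?_⟩
    exact Finset.prod_ne_zero_iff.2 fun l _ => hs l
  · intro c P hP
    obtain ⟨w, hw⟩ := hP (ZMod p) O φ hO (fun i => red i) hred
    refine ⟨w, Eq.trans ?_ hw⟩
    congr 1
    apply Finset.sum_congr rfl
    intro i _
    congr 1
    beta_reduce
    rw [Fintype.sum_sigma, Finset.sum_eq_single i]
    · simp only [if_true]
      rfl
    · intro i' _ hi'
      apply Finset.sum_eq_zero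
      intro s _
      rw [if_neg hi']
    · intro h; exact absurd (Finset.mem_univ i) h

theorem mainB (hMWK : MWK) (hREDK : REDK) (hPADIC : PADIC) (hEXP : EXP) (hNZW : NZW)
    (hHPD : HPD) (hROOT : ROOT) (hCRDW : CRDW) (hABSB : ABSB) : MAINB := by
  classical
  intro K _ _ r m d hr hm hd a b M D α hM hD hα hdisc hσ hss ε hε
  have hfg : ∀ i, Module.Finite ℤ (crv K (a i : K) (b i : K)).Point := fun i =>
    Module.Finite.iff_addGroup_fg.2 (hMWK K (a i) (b i) (hdisc i))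
  have hFG : AddGroup.FG ((i : Fin r) → (crv K (a i : K) (b i : K)).Point) :=
    Module.Finite.iff_addGroup_fg.1 inferInstance
  set D' : ℕ := D * ∏ i, (4 * a i ^ 3 + 27 * b i ^ 2).natAbs with hD'
  have hD'0 : 0 < D' := by
    apply Nat.mul_pos hD
    apply Nat.pos_of_ne_zero
    rw [Finset.prod_ne_zero_iff]
    intro i _
    exact Int.natAbs_ne_zero.2 (hdisc i)
  have hV : ∀ p : ℕ, ∃ V : ((i : Fin r) → (crv K (a i : K) (b i : K)).Point) → Idx r m d → ZMod p,
      p.Prime → 2 < p → ¬ p ∣ D' → (M : ℤ) ∣ (p : ℤ) - α →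
      (∀ P P' R : (i : Fin r) → (crv K (a i : K) (b i : K)).Point,
        P = P' + ((p : ℤ) + 1) • R → V P = V P') ∧
      (∀ P i, ∃ j : Idx r m d, j.1 = i ∧ V P j ≠ 0) ∧
      (∀ (c : Idx r m d → ℤ) P, PtProp a b c P →
        (fun i => ∑ j : Idx r m d, if j.1 = i then (c j : ZMod p) * V P j else 0) ∈
          rootSet p d) := by
    intro p
    by_cases hgood : p.Prime ∧ 2 < p ∧ ¬ p ∣ D' ∧ (M : ℤ) ∣ (p : ℤ) - α
    · obtain ⟨hp, h2, hpD, hMp⟩ := hgood
      have hpD1 : ¬ p ∣ D := fun h => hpD (h.mul_right _)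
      have hpd : ∀ i, ¬ (p : ℤ) ∣ 4 * a i ^ 3 + 27 * b i ^ 2 := by
        intro i h
        apply hpD
        apply Dvd.dvd.mul_left
        exact (Int.natCast_dvd.1 h).trans (Finset.dvd_prod_of_mem _ (Finset.mem_univ i))
      obtain ⟨V, hV⟩ := localV (K := K) (r := r) (m := m) (d := d) hREDK hPADIC hEXP hNZW hm a b p
        hp h2 hpd (fun {hF} => @hσ p hF hpD1 hMp) (fun i => hss i p hp hpD1 hMp)
      exact ⟨V, fun _ _ _ _ => hV⟩
    · refine ⟨fun _ _ => 0, fun h1 h2 h3 h4 => absurd ⟨h1, h2, h3, h4⟩ hgood⟩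
  choose V hV using hV
  have hη : (0 : ℝ) < 1 / (2 * (d : ℝ) ^ 2) := by
    have : (0 : ℝ) < d := by exact_mod_cast (by omega : 0 < d)
    positivity
  have hη1 : 1 / (2 * (d : ℝ) ^ 2) ≤ 1 := by
    have h1 : (1 : ℝ) ≤ d := by exact_mod_cast (by omega : 1 ≤ d)
    rw [div_le_one (by positivity)]
    nlinarith
  obtain ⟨C, hC⟩ := hABSB ((i : Fin r) → (crv K (a i : K) (b i : K)).Point) (Idx r m d) d
    (fun j => j.1) M D' α 1 V (fun p => rootSet p d) (1 / (2 * (d : ℝ) ^ 2)) (by omega) hM hD'0 hα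
    (Or.inl rfl) hη hη1 (by
      intro p hp h2 hpD hMp
      obtain ⟨h3, h4, -⟩ := hV p hp h2 hpD hMp
      exact ⟨h3, h4, hROOT p d hp hd⟩) ε hε
  refine ⟨C, fun H hH => ?_⟩
  have h1 := hC H hH
  have hcard : (Fintype.card (Idx r m d) : ℝ) = ∑ i : Fin d, (((i.1 + 1) * m : ℕ) : ℝ) ^ r := by
    rw [Fintype.card_sigma]
    push_cast
    apply Finset.sum_congr rfl
    intro i _
    rw [Fintype.card_fun, hCRDW ((i.1 + 1) * m) (by nlinarith), Fintype.card_fin]
    push_cast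
    ring
  rw [hcard] at h1
  refine le_trans ?_ h1
  have h2K : (2 : K) ≠ 0 := two_ne_zero
  have hdK : ∀ i, ((4 * a i ^ 3 + 27 * b i ^ 2 : ℤ) : K) ≠ 0 := fun i =>
    Int.cast_ne_zero.2 (hdisc i)
  have h3 := card_box_le (ι := Idx r m d) H (fun c => HasPointD K a b c)
    (fun c => ∃ P : (i : Fin r) → (crv K (a i : K) (b i : K)).Point, ∀ p : ℕ, p.Prime → 2 < p →
      ¬ p ∣ D' → (M : ℤ) ∣ (p : ℤ) - α →
      (fun i => ∑ j : Idx r m d, if j.1 = i then (c j : ZMod p) * V p P j else 0) ∈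
        rootSet p d) (by
    intro c hc
    obtain ⟨P, hP⟩ := hHPD K r m d a b c (by omega) h2K hdK hc
    refine ⟨P, fun p hp h2 hpD hMp => ?_⟩
    exact (hV p hp h2 hpD hMp).2.2 c P hP)
  exact_mod_cast h3

end Pool.Agent.H925R3.DD
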