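import Mathlib
import Pool.Agent.H925R3.DC.Final
import Pool.Agent.H925R3.DD.Abs
import Pool.Agent.H925R3.DD.Main
import Pool.Agent.H785R9.DD_CRDW
import Pool.Agent.H380R4.DD.DD_HPD
import Pool.Agent.H819R2.DD_LINB
import Pool.Agent.H226R3.DD_LOC1
import Pool.Agent.H582R4.DD_MOM
import Pool.Agent.H64R2.DD_MWK
import Pool.Agent.H903R2.DD_NZW
import Pool.Agent.Helper485.DD_PADIC
import Pool.Agent.H619R2.DD_PARB
import Pool.Agent.H736R4.DD_PRMCG
import Pool.Agent.H781R2.DD.DD_PRMG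
import Pool.Agent.H992DD.DD_PRMSG
import Pool.Agent.H575DD.DD_QUAD
import Pool.Agent.H602R2.DD_REDK
import Pool.Agent.H386R6.DD_ROOT

/-! Everything put together, degree `d`. -/

namespace Pool.Agent.H925R3.DD

theorem prmg' : PRMG := Pool.Agent.H781R2.DD.prmg Pool.Agent.H410R2.bvap Pool.Agent.H732R2.pntLog
  Pool.Agent.Helper55.DC.prmq Pool.Agent.H992DD.prmsg Pool.Agent.H736R4.PRMCG.prmcg

theorem absB : ABSB := abs_mainB Pool.Agent.H133R3.DC.cls prmg'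
  (Pool.Agent.H819R2.DDLINB.linb Pool.Agent.H582R4.MOM.mom) Pool.Agent.H619R2.DDPARB.parb

theorem mainBThm : MAINB := mainB Pool.Agent.H64R2.DDMWK.mwk Pool.Agent.H602R2.DD_REDK.redk
  Pool.Agent.Helper485.DDPADIC.padic Pool.Agent.H477R5.DC.exp Pool.Agent.H903R2.DDNZW.nzw
  (Pool.Agent.H380R4.DD.hpd Pool.Agent.H226R3.DD.loc1) Pool.Agent.H386R6.DD_ROOT.root
  Pool.Agent.H785R9.crdw absB

end Pool.Agent.H925R3.DD
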